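import Mathlib
import Pool.Agent.H389R3.LR6
import Pool.Agent.H388SL.DobC

/-!
# Real zeros: a polynomial lower bound for the height in terms of the proportion of real zeros
-/

set_option autoImplicit false

open Finset Polynomial Module IntermediateField

namespace Pool.Agent.J6H8.FC

open Pool.Agent.H388SL Pool.Agent.H389R3.LR

/-- Dobrowolski's bound for a monic irreducible polynomial -/
theorem irr_dob : ∃ c : ℝ, 0 < c ∧ ∀ p : ℤ[X], Irreducible p → p.Monic →
    1 < (p.map (Int.castRingHom ℂ)).mahlerMeasure →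
    c / (Real.log (2 * p.natDegree)) ^ 3 ≤ Real.log (p.map (Int.castRingHom ℂ)).mahlerMeasure := by
  classical
  obtain ⟨c, hc, hdob⟩ := dob
  refine ⟨c, hc, fun p hp hm hM => ?_⟩
  have hdeg : p.natDegree ≠ 0 := by
    intro h
    have := hm.natDegree_eq_zero.mp h
    exact hp.not_isUnit (this ▸ isUnit_one)
  obtain ⟨z, hz⟩ := IsAlgClosed.exists_aeval_eq_zero ℂ p (by
    intro h
    exact hdeg (natDegree_eq_of_degree_eq_some h))
  have hzi : IsIntegral ℤ z := ⟨p, hm, by rw [← Polynomial.aeval_def]; exact hz⟩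
  have hzQ : IsIntegral ℚ z := hzi.tower_top
  have hmin : minpoly ℤ z = p := by
    have h1 := minpoly.isIntegrallyClosed_dvd hzi hz
    have h2 : Associated (minpoly ℤ z) p :=
      (minpoly.irreducible hzi).associated_of_dvd hp h1
    exact eq_of_monic_of_associated (minpoly.monic hzi) hm h2
  set L := adjoin ℚ {z} with hL
  have hfin : FiniteDimensional ℚ L := adjoin.finiteDimensional hzQ
  have : NumberField L := { to_charZero := inferInstance, to_finiteDimensional := hfin }
  set α : L := AdjoinSimple.gen ℚ z with hα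
  have hαz : algebraMap L ℂ α = z := AdjoinSimple.algebraMap_gen ℚ z
  have hαi : IsIntegral ℤ α := by
    rw [← hαz] at hzi
    exact (isIntegral_algebraMap_iff (algebraMap L ℂ).injective).mp hzi
  have hαc : CInj α := by
    intro σ τ h
    apply adjoin_algHom_ext ℚ (s := {z})
    intro x hx
    rw [Set.mem_singleton_iff] at hx
    subst hx
    exact h
  have hminα : minpoly ℤ α = p := by
    rw [← hmin, ← hαz]
    exact (minpoly.algebraMap_eq (algebraMap L ℂ).injective α).symm
  have hpmap : p.map (Int.castRingHom ℂ) = ∏ τ : L →ₐ[ℚ] ℂ, (X - C (τ α)) := by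
    rw [← minpoly_map_eq hαc, minpoly.isIntegrallyClosed_eq_field_fractions' ℚ hαi, hminα,
      Polynomial.map_map]
    rfl
  have hMM : Real.log (p.map (Int.castRingHom ℂ)).mahlerMeasure = lam α := by
    rw [hpmap]
    have h1 : (∏ τ : L →ₐ[ℚ] ℂ, (X - C (τ α))).mahlerMeasure = ∏ τ : L →ₐ[ℚ] ℂ, max 1 ‖τ α‖ := by
      rw [Finset.prod_eq_multiset_prod, prod_mahlerMeasure_eq_mahlerMeasure_prod, Multiset.map_map,
        Finset.prod_eq_multiset_prod]
      congr 1
      refine Multiset.map_congr rfl fun τ _ => ?_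
      rw [Function.comp_apply, mahlerMeasure_X_sub_C]
    rw [h1, Real.log_prod]
    · rfl
    · intro τ _
      have : (0:ℝ) < max 1 ‖τ α‖ := lt_of_lt_of_le one_pos (le_max_left _ _)
      exact this.ne'
  have hfr : finrank ℚ L = p.natDegree := by
    rw [hL, adjoin.finrank hzQ, minpoly.isIntegrallyClosed_eq_field_fractions' ℚ hzi, hmin]
    exact natDegree_map_eq_of_injective (algebraMap ℤ ℚ).injective_int p
  have hlampos : 0 < lam α := by
    rw [← hMM]; exact Real.log_pos hM
  have hα0 : α ≠ 0 := by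
    intro h
    rw [h] at hlampos
    unfold lam at hlampos
    simp at hlampos
  have hαroot : ∀ n : ℕ, 0 < n → α ^ n ≠ 1 := by
    intro n hn h
    have h1 := lam_pow α n
    rw [h] at h1
    have h2 : lam (1 : L) = 0 := by unfold lam; simp
    rw [h2] at h1
    have h3 : (0:ℝ) < n := by exact_mod_cast hn
    have : 0 < (n:ℝ) * lam α := mul_pos h3 hlampos
    linarith
  have h := hdob L α hαi hα0 hαroot hαc
  rw [hfr, ← hMM] at h
  exact h

/-- the analytic part -/
lemma analytic {c x δ R l : ℝ} (hc : 0 < c) (hx : 1 ≤ x) (hδ : 1 ≤ δ) (hR : δ ≤ x * R)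
    (h1 : min (R ^ 2 / δ) (R ^ 4 / (δ ^ 2 * Real.log (2 * δ))) ≤ 34078720 * l)
    (h2 : c / (Real.log (2 * δ)) ^ 3 ≤ l) :
    min (1 / 136314880) (c / 8) * (δ / (x * Real.log (2 * x)) ^ 2) ≤ l := by
  have hlog2 := Real.log_two_gt_d9
  set e := Real.log (2 * x) with he
  have he2 : 0.69 < e := by
    have : Real.log 2 ≤ e := Real.log_le_log two_pos (by linarith)
    linarith
  have he0 : 0 < e := by linarith
  have hx0 : 0 < x := by linarith
  have hδ0 : 0 < δ := by linarith
  have hlδ : 0.69 < Real.log (2 * δ) := by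
    have : Real.log 2 ≤ Real.log (2 * δ) := Real.log_le_log two_pos (by linarith)
    linarith
  have hlδ0 : 0 < Real.log (2 * δ) := by linarith
  set y := δ / x ^ 2 with hy
  have hy0 : 0 < y := by positivity
  have hR0 : 0 < R := by
    by_contra h
    push Not at h
    have : x * R ≤ 0 := mul_nonpos_of_nonneg_of_nonpos hx0.le h
    linarith
  have hRx : δ / x ≤ R := by
    rw [div_le_iff₀ hx0]; linarith
  have hδy : δ = y * x ^ 2 := by rw [hy]; field_simp
  have htarget : δ / (x * e) ^ 2 = y / e ^ 2 := by rw [hy]; field_simp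
  rw [htarget]
  have hz0 : 0 < y / e ^ 2 := by positivity
  -- log (2x^2/e) ≤ 2 e
  have hexp : Real.exp (2 * e) = 4 * x ^ 2 := by
    have : Real.exp e = 2 * x := Real.exp_log (by linarith)
    rw [two_mul, Real.exp_add, this]; ring
  have hle : Real.log (2 * x ^ 2 / e) ≤ 2 * e := by
    rw [Real.log_le_iff_le_exp (by positivity), hexp, div_le_iff₀ he0]
    nlinarith [sq_nonneg x]
  rcases le_or_gt 1 (y * e) with hA | hB
  · -- large degree
    have k1 : y / e ^ 2 / 4 ≤ R ^ 2 / δ := by
      have h3 : y ≤ R ^ 2 / δ := by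
        rw [le_div_iff₀ hδ0]
        have h4 : (δ / x) ^ 2 ≤ R ^ 2 := pow_le_pow_left₀ (by positivity) hRx 2
        have h5 : (δ / x) ^ 2 = y * δ := by rw [hy]; field_simp
        linarith
      have h6 : y / e ^ 2 / 4 ≤ y := by
        rw [div_div, div_le_iff₀ (by positivity)]
        nlinarith
      linarith
    have k2 : y / e ^ 2 / 4 ≤ R ^ 4 / (δ ^ 2 * Real.log (2 * δ)) := by
      have h3 : y ^ 2 * δ ^ 2 ≤ R ^ 4 := by
        have h4 : (δ / x) ^ 4 ≤ R ^ 4 := pow_le_pow_left₀ (by positivity) hRx 4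
        have h5 : (δ / x) ^ 4 = y ^ 2 * δ ^ 2 := by rw [hy]; field_simp
        linarith
      have h4 : Real.log (2 * δ) ≤ y * e * (1 + 2 * e) := by
        have h5 : 2 * δ = (y * e) * (2 * x ^ 2 / e) := by rw [hδy]; field_simp
        rw [h5, Real.log_mul (by positivity) (by positivity)]
        have h6 := Real.log_le_sub_one_of_pos (show 0 < y * e by positivity)
        nlinarith
      rw [le_div_iff₀ (by positivity)]
      refine le_trans ?_ h3
      have h5 : y / e ^ 2 / 4 * (δ ^ 2 * Real.log (2 * δ)) ≤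
          y / e ^ 2 / 4 * (δ ^ 2 * (y * e * (1 + 2 * e))) := by
        apply mul_le_mul_of_nonneg_left _ (by positivity)
        exact mul_le_mul_of_nonneg_left h4 (by positivity)
      refine h5.trans ?_
      have h6 : y / e ^ 2 / 4 * (δ ^ 2 * (y * e * (1 + 2 * e))) =
          y ^ 2 * δ ^ 2 * ((1 + 2 * e) / (4 * e)) := by field_simp
      rw [h6]
      have h7 : (1 + 2 * e) / (4 * e) ≤ 1 := by
        rw [div_le_one (by positivity)]; linarith
      have h8 : 0 ≤ y ^ 2 * δ ^ 2 := by positivity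
      nlinarith
    have k3 : y / e ^ 2 / 4 ≤ 34078720 * l := (le_min k1 k2).trans h1
    have k4 : min (1 / 136314880) (c / 8) * (y / e ^ 2) ≤ 1 / 136314880 * (y / e ^ 2) :=
      mul_le_mul_of_nonneg_right (min_le_left _ _) hz0.le
    refine k4.trans ?_
    linarith
  · -- small degree
    have k1 : Real.log (2 * δ) ≤ 2 * e := by
      have h5 : 2 * δ = (y * e) * (2 * x ^ 2 / e) := by rw [hδy]; field_simp
      rw [h5, Real.log_mul (by positivity) (by positivity)]
      have h6 := Real.log_le_sub_one_of_pos (show 0 < y * e by positivity)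
      linarith
    have k2 : c / (8 * e ^ 3) ≤ c / (Real.log (2 * δ)) ^ 3 := by
      apply div_le_div_of_nonneg_left hc.le (by positivity)
      have := pow_le_pow_left₀ hlδ0.le k1 3
      nlinarith
    have k3 : min (1 / 136314880) (c / 8) * (y / e ^ 2) ≤ c / 8 * (y / e ^ 2) :=
      mul_le_mul_of_nonneg_right (min_le_right _ _) hz0.le
    refine k3.trans (le_trans ?_ (k2.trans h2))
    have h7 : c / 8 * (y / e ^ 2) = c / (8 * e ^ 3) * (y * e) := by field_simp
    rw [h7]
    have h8 : 0 ≤ c / (8 * e ^ 3) := by positivity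
    nlinarith

/-- **real zeros**: a polynomial bound in terms of the proportion of the real zeros -/
theorem real_zeros : ∃ c : ℝ, 0 < c ∧ ∀ p : ℤ[X], Irreducible p → p.Monic →
    1 < (p.map (Int.castRingHom ℂ)).mahlerMeasure → ∀ x : ℝ, 1 ≤ x →
    (p.natDegree : ℝ) ≤ x * lineRoots p 1 →
    c * (p.natDegree / (x * Real.log (2 * x)) ^ 2) ≤
      Real.log (p.map (Int.castRingHom ℂ)).mahlerMeasure := by
  obtain ⟨c, hc, hdob⟩ := irr_dob
  refine ⟨min (1 / 136314880) (c / 8), lt_min (by norm_num) (by positivity), ?_⟩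
  intro p hp hm hM x hx hR
  have hdeg : p.natDegree ≠ 0 := by
    intro h
    have := hm.natDegree_eq_zero.mp h
    exact hp.not_isUnit (this ▸ isUnit_one)
  have hδ : (1:ℝ) ≤ p.natDegree := by exact_mod_cast Nat.one_le_iff_ne_zero.mpr hdeg
  have h1 := irr_bound p hp hm hM (q := 1) le_rfl
  have h2 := hdob p hp hm hM
  refine analytic hc hx hδ hR ?_ h2
  have : (34078720:ℝ) * ((1:ℕ):ℝ) ^ 5 * Real.log (p.map (Int.castRingHom ℂ)).mahlerMeasure =
      34078720 * Real.log (p.map (Int.castRingHom ℂ)).mahlerMeasure := by simp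
  rw [this] at h1
  exact h1

end Pool.Agent.J6H8.FC
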