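import Mathlib
import Pool.Agent.J6H8.FC.Real

/-!
# Sums over the Galois group, and products of two conjugates
-/

set_option autoImplicit false

open Finset Polynomial Module IntermediateField

namespace Pool.Agent.J6H8.FC

open Pool.Agent.H388SL Pool.Agent.H389R3.LR

variable {K : IntermediateField ℚ ℂ} [FiniteDimensional ℚ K] [IsGalois ℚ K]

open Classical in
/-- the number of the automorphisms fixing `x` -/
noncomputable def stab (x : K) : ℕ := (Finset.univ.filter fun σ : K ≃ₐ[ℚ] K => σ x = x).card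

lemma stab_pos (x : K) : 0 < stab x := by
  classical
  unfold stab
  exact Finset.card_pos.mpr ⟨1, by simp⟩

/-- all embeddings come from automorphisms -/
lemma exists_aut (τ : K →ₐ[ℚ] ℂ) : ∃ σ : K ≃ₐ[ℚ] K, ∀ x, τ x = (σ x : ℂ) := by
  refine ⟨Normal.algHomEquivAut ℚ ℂ K τ, fun x => ?_⟩
  have h := (Normal.algHomEquivAut ℚ ℂ K).symm_apply_apply τ
  conv_lhs => rw [← h]
  rfl

instance : NumberField K := { to_charZero := inferInstance, to_finiteDimensional := inferInstance }

open Classical in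
lemma conjSet_eq (x : K) :
    conjSet x = Finset.univ.image fun σ : K ≃ₐ[ℚ] K => ((σ x : K) : ℂ) := by
  ext z
  rw [mem_conjSet, Finset.mem_image]
  constructor
  · rintro ⟨τ, rfl⟩
    obtain ⟨σ, hσ⟩ := exists_aut τ
    exact ⟨σ, Finset.mem_univ _, (hσ x).symm⟩
  · rintro ⟨σ, -, rfl⟩
    exact ⟨K.val.comp σ.toAlgHom, rfl⟩

open Classical in
lemma fiber_card (x : K) (τ : K ≃ₐ[ℚ] K) :
    (Finset.univ.filter fun σ : K ≃ₐ[ℚ] K => ((σ x : K) : ℂ) = ((τ x : K) : ℂ)).card = stab x := by
  unfold stab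
  refine Finset.card_bij (fun σ _ => τ⁻¹ * σ) ?_ ?_ ?_
  · intro σ hσ
    simp only [Finset.mem_filter, Finset.mem_univ, true_and] at hσ ⊢
    have h : σ x = τ x := Subtype.ext hσ
    rw [AlgEquiv.mul_apply, h, ← AlgEquiv.mul_apply]
    simp
  · intro σ _ σ' _ h
    exact mul_left_cancel h
  · intro σ hσ
    simp only [Finset.mem_filter, Finset.mem_univ, true_and] at hσ ⊢
    refine ⟨τ * σ, ?_, ?_⟩
    · rw [AlgEquiv.mul_apply, hσ]
    · group

open Classical in
/-- sums over the Galois group are sums over the zeros of the minimal polynomial -/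
lemma sum_conj (x : K) (hx : IsIntegral ℤ x) (φ : ℂ → ℝ) :
    ∑ σ : K ≃ₐ[ℚ] K, φ (σ x) =
      stab x * (((minpoly ℤ x).map (Int.castRingHom ℂ)).roots.map φ).sum := by
  rw [minpolyZ_map hx, roots_prod_X_sub_C]
  change _ = (stab x : ℝ) * ∑ z ∈ conjSet x, φ z
  rw [conjSet_eq, Finset.mul_sum]
  rw [← Finset.sum_fiberwise_of_maps_to (s := (Finset.univ : Finset (K ≃ₐ[ℚ] K)))
    (t := (Finset.univ : Finset (K ≃ₐ[ℚ] K)).image fun σ => ((σ x : K) : ℂ))
    (g := fun σ => ((σ x : K) : ℂ)) (fun σ hσ => Finset.mem_image_of_mem _ hσ)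
    (fun σ => φ (σ x))]
  refine Finset.sum_congr rfl fun z hz => ?_
  obtain ⟨τ, -, rfl⟩ := Finset.mem_image.mp hz
  rw [Finset.sum_congr rfl (g := fun _ => φ ((τ x : K) : ℂ)) (fun σ hσ => by
    rw [(Finset.mem_filter.mp hσ).2])]
  rw [Finset.sum_const, fiber_card, nsmul_eq_mul]

/-- the orbit-stabilizer theorem -/
lemma stab_mul (x : K) (hx : IsIntegral ℤ x) :
    stab x * (minpoly ℤ x).natDegree = Fintype.card (K ≃ₐ[ℚ] K) := by
  classical
  have h := sum_conj x hx (fun _ => 1)
  rw [Finset.sum_const, Multiset.map_const', Multiset.sum_replicate, nsmul_eq_mul, nsmul_eq_mul,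
    mul_one, mul_one, Finset.card_univ, (IsAlgClosed.splits _).natDegree_eq_card_roots.symm,
    (minpoly.monic hx).natDegree_map] at h
  exact_mod_cast h.symm

/-- the logarithm of the Mahler measure of the minimal polynomial -/
lemma sum_logPlus (x : K) (hx : IsIntegral ℤ x) :
    ∑ σ : K ≃ₐ[ℚ] K, Real.posLog ‖((σ x : K) : ℂ)‖ =
      stab x * Real.log ((minpoly ℤ x).map (Int.castRingHom ℂ)).mahlerMeasure := by
  classical
  rw [sum_conj x hx (fun z => Real.posLog ‖z‖)]
  congr 1
  have hm : ((minpoly ℤ x).map (Int.castRingHom ℂ)).Monic := (minpoly.monic hx).map _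
  rw [← logMahlerMeasure_eq_log_MahlerMeasure,
    logMahlerMeasure_eq_log_leadingCoeff_add_sum_log_roots, hm.leadingCoeff]
  simp

/-- the number of the real zeros -/
lemma sum_real (x : K) (hx : IsIntegral ℤ x) :
    haveI := Classical.decPred fun σ : K ≃ₐ[ℚ] K => ((σ x : K) : ℂ).im = 0
    ((Finset.univ.filter fun σ : K ≃ₐ[ℚ] K => ((σ x : K) : ℂ).im = 0).card : ℝ) =
      stab x * lineRoots (minpoly ℤ x) 1 := by
  classical
  have h := sum_conj x hx (fun z => if z.im = 0 then 1 else 0)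
  rw [Finset.sum_ite, Finset.sum_const_zero, add_zero, Finset.sum_const, nsmul_eq_mul, mul_one] at h
  rw [h]
  congr 1
  unfold lineRoots
  simp only [pow_one]
  generalize ((minpoly ℤ x).map (Int.castRingHom ℂ)).roots = s
  induction s using Multiset.induction_on with
  | empty => simp
  | cons a s ih =>
    rw [Multiset.map_cons, Multiset.sum_cons, ih, Multiset.filter_cons]
    by_cases ha : a.im = 0
    · simp [ha, add_comm]
    · simp [ha]

end Pool.Agent.J6H8.FC
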