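import Mathlib
import Pool.Agent.J6H8.FC.Galois

/-!
# The base inequality and the counting argument
-/

set_option autoImplicit false

open Finset Polynomial Module IntermediateField

namespace Pool.Agent.J6H8.FC

open Pool.Agent.H388SL Pool.Agent.H389R3.LR

lemma log_pos_of (K : IntermediateField ℚ ℂ) [FiniteDimensional ℚ K] [IsGalois ℚ K] (x : K)
    (hx : IsIntegral ℤ x) (h0 : x ≠ 0) (hr : ∀ m : ℕ, 0 < m → x ^ m ≠ 1) :
    1 < ((minpoly ℤ x).map (Int.castRingHom ℂ)).mahlerMeasure := by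
  classical
  have hm : ((minpoly ℤ x).map (Int.castRingHom ℂ)).Monic := (minpoly.monic hx).map _
  have h1 : 1 ≤ ((minpoly ℤ x).map (Int.castRingHom ℂ)).mahlerMeasure := by
    have := leadingCoeff_le_mahlerMeasure ((minpoly ℤ x).map (Int.castRingHom ℂ))
    rw [hm.leadingCoeff] at this
    simpa using this
  rcases h1.lt_or_eq with h | h
  · exact h
  exfalso
  have h2 := sum_logPlus x hx
  rw [← h, Real.log_one, mul_zero] at h2
  have h3 := (Finset.sum_eq_zero_iff_of_nonneg (fun σ _ => Real.posLog_nonneg)).mp h2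
  have h4 := lam_pos hx h0 hr
  have h5 : lam x = 0 := by
    unfold lam
    refine Finset.sum_eq_zero fun τ _ => ?_
    obtain ⟨σ, hσ⟩ := exists_aut τ
    rw [hσ x]
    have h6 := h3 σ (Finset.mem_univ _)
    have h7 : ‖((σ x : K) : ℂ)‖ ≤ 1 := by
      by_contra hcon
      push Not at hcon
      have := Real.posLog_eq_log (x := ‖((σ x : K) : ℂ)‖) (by rw [abs_norm]; exact hcon.le)
      rw [this] at h6
      have := Real.log_pos hcon
      linarith
    rw [max_eq_left h7, Real.log_one]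
  linarith

/-- **the base inequality** -/
theorem base : ∃ c : ℝ, 0 < c ∧ ∀ (K : IntermediateField ℚ ℂ) [FiniteDimensional ℚ K]
    [IsGalois ℚ K] (x : K) (g : K ≃ₐ[ℚ] K), IsIntegral ℤ x → x * g x ≠ 0 →
    (∀ m : ℕ, 0 < m → (x * g x) ^ m ≠ 1) → ∀ (A : Finset (K ≃ₐ[ℚ] K)) (t : ℝ), 1 ≤ t →
    (∀ σ ∈ A, ((σ (x * g x) : K) : ℂ).im = 0) →
    (Fintype.card (K ≃ₐ[ℚ] K) : ℝ) ≤ t * A.card →
    c * ((minpoly ℤ x).natDegree / (t * Real.log (2 * t)) ^ 2) ≤
      Real.log ((minpoly ℤ x).map (Int.castRingHom ℂ)).mahlerMeasure := by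
  classical
  obtain ⟨c, hc, H⟩ := real_zeros
  refine ⟨c / 2, by positivity, ?_⟩
  intro K _ _ x g hx h0 hr A t ht hA hcard
  have hgx : IsIntegral ℤ (g x) := hx.map (g.toAlgHom.restrictScalars ℤ)
  have hγ : IsIntegral ℤ (x * g x) := hx.mul hgx
  have hM := log_pos_of K (x * g x) hγ h0 hr
  have hs := stab_pos (x * g x)
  have hs' : (0:ℝ) < stab (x * g x) := by exact_mod_cast hs
  have hsx : (0:ℝ) < stab x := by exact_mod_cast stab_pos x
  have e1 : (stab (x * g x) : ℝ) * (minpoly ℤ (x * g x)).natDegree =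
      Fintype.card (K ≃ₐ[ℚ] K) := by exact_mod_cast stab_mul (x * g x) hγ
  have e2 : (stab x : ℝ) * (minpoly ℤ x).natDegree = Fintype.card (K ≃ₐ[ℚ] K) := by
    exact_mod_cast stab_mul x hx
  have e3 := sum_real (x * g x) hγ
  have e4 : (A.card : ℝ) ≤ stab (x * g x) * lineRoots (minpoly ℤ (x * g x)) 1 := by
    rw [← e3]
    have : A ⊆ Finset.univ.filter fun σ : K ≃ₐ[ℚ] K => ((σ (x * g x) : K) : ℂ).im = 0 := by
      intro σ hσ
      rw [Finset.mem_filter]
      exact ⟨Finset.mem_univ _, hA σ hσ⟩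
    exact_mod_cast Finset.card_le_card this
  have ht0 : 0 < t := by linarith
  have e5 : ((minpoly ℤ (x * g x)).natDegree : ℝ) ≤ t * lineRoots (minpoly ℤ (x * g x)) 1 := by
    have h1 : (stab (x * g x) : ℝ) * (minpoly ℤ (x * g x)).natDegree ≤
        stab (x * g x) * (t * lineRoots (minpoly ℤ (x * g x)) 1) := by
      rw [e1]
      refine hcard.trans ((mul_le_mul_of_nonneg_left e4 ht0.le).trans (le_of_eq ?_))
      ring
    exact le_of_mul_le_mul_left h1 hs'
  have e6 := H _ (minpoly.irreducible hγ) (minpoly.monic hγ) hM t ht e5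
  have e7 := mul_le_mul_of_nonneg_left e6 hs'.le
  rw [← sum_logPlus (x * g x) hγ] at e7
  have e8 : ∑ σ : K ≃ₐ[ℚ] K, Real.posLog ‖((σ (x * g x) : K) : ℂ)‖ ≤
      ∑ σ : K ≃ₐ[ℚ] K, Real.posLog ‖((σ x : K) : ℂ)‖ +
        ∑ σ : K ≃ₐ[ℚ] K, Real.posLog ‖((σ (g x) : K) : ℂ)‖ := by
    rw [← Finset.sum_add_distrib]
    refine Finset.sum_le_sum fun σ _ => ?_
    rw [map_mul]
    push_cast
    rw [norm_mul]
    exact Real.posLog_mul
  have e9 : ∑ σ : K ≃ₐ[ℚ] K, Real.posLog ‖((σ (g x) : K) : ℂ)‖ =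
      ∑ σ : K ≃ₐ[ℚ] K, Real.posLog ‖((σ x : K) : ℂ)‖ :=
    Fintype.sum_equiv (Equiv.mulRight g) _ _ fun σ => rfl
  rw [e9, sum_logPlus x hx] at e8
  have e10 : (stab (x * g x) : ℝ) * (c * ((minpoly ℤ (x * g x)).natDegree /
      (t * Real.log (2 * t)) ^ 2)) =
      stab x * (c * ((minpoly ℤ x).natDegree / (t * Real.log (2 * t)) ^ 2)) := by
    have h1 : (stab (x * g x) : ℝ) * (c * ((minpoly ℤ (x * g x)).natDegree /
      (t * Real.log (2 * t)) ^ 2)) = c * ((stab (x * g x) * (minpoly ℤ (x * g x)).natDegree) /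
      (t * Real.log (2 * t)) ^ 2) := by ring
    have h2 : (stab x : ℝ) * (c * ((minpoly ℤ x).natDegree / (t * Real.log (2 * t)) ^ 2)) =
      c * ((stab x * (minpoly ℤ x).natDegree) / (t * Real.log (2 * t)) ^ 2) := by ring
    rw [h1, h2, e1, e2]
  rw [e10] at e7
  have e11 : (stab x : ℝ) * (c * ((minpoly ℤ x).natDegree / (t * Real.log (2 * t)) ^ 2)) ≤
      stab x * (2 * Real.log ((minpoly ℤ x).map (Int.castRingHom ℂ)).mahlerMeasure) := by
    linarith
  have e12 := le_of_mul_le_mul_left e11 hsx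
  linarith

/-- the double counting argument -/
lemma comb {G Ω : Type*} [Group G] [Fintype G] [MulAction G Ω] (N : Subgroup G) (c : G) (a : Ω)
    (P : Ω → Prop) (m : ℕ) [Fintype N] [DecidablePred (· ∈ N)] [DecidablePred P] [DecidableEq Ω]
    (hs : ∀ τ : G, (Finset.univ.filter fun h : N => (h : G) • (τ • a) = τ • a).card * m =
      Fintype.card N) :
    ∃ τ : G, ∃ h ∈ N, (Finset.univ.filter fun σ : G => c⁻¹ * σ⁻¹ * c * σ ∈ N).card *
        (Finset.univ.filter fun τ : G => P (τ • a)).card ≤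
      (Finset.univ.filter fun σ : G => c⁻¹ * σ⁻¹ * c * σ ∈ N ∧
        σ • (c • h • τ • a) = c • σ • τ • a ∧ P (σ • τ • a)).card * (Fintype.card G * m) := by
  by_contra hcon
  push Not at hcon
  set C := (Finset.univ.filter fun σ : G => c⁻¹ * σ⁻¹ * c * σ ∈ N) with hC
  set W := (Finset.univ.filter fun τ : G => P (τ • a)).card with hW
  have hNpos : 0 < Fintype.card N := Fintype.card_pos
  have hGpos : 0 < Fintype.card G := Fintype.card_pos
  -- the sum
  have key : ∀ τ : G, ∀ h : N, (Finset.univ.filter fun σ : G => c⁻¹ * σ⁻¹ * c * σ ∈ N ∧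
        σ • (c • (h : G) • τ • a) = c • σ • τ • a ∧ P (σ • τ • a)).card =
      ∑ σ ∈ C, if (σ • (c • (h : G) • τ • a) = c • σ • τ • a ∧ P (σ • τ • a)) then 1 else 0 := by
    intro τ h
    rw [Finset.sum_boole, hC, Finset.filter_filter]
    simp
  have hsum : m * ∑ τ : G, ∑ h : N, (Finset.univ.filter fun σ : G => c⁻¹ * σ⁻¹ * c * σ ∈ N ∧
        σ • (c • (h : G) • τ • a) = c • σ • τ • a ∧ P (σ • τ • a)).card =
      C.card * W * Fintype.card N := by
    simp_rw [key]
    have h1 : ∀ τ : G, ∑ h : N, ∑ σ ∈ C, (if (σ • (c • (h : G) • τ • a) = c • σ • τ • a ∧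
        P (σ • τ • a)) then 1 else 0) = ∑ σ ∈ C, ∑ h : N, (if (σ • (c • (h : G) • τ • a) =
          c • σ • τ • a ∧ P (σ • τ • a)) then 1 else 0) := fun τ => Finset.sum_comm
    simp_rw [h1]
    rw [Finset.sum_comm]
    have h2 : ∀ σ ∈ C, ∀ τ : G, m * ∑ h : N, (if (σ • (c • (h : G) • τ • a) =
          c • σ • τ • a ∧ P (σ • τ • a)) then 1 else 0) =
          if P (σ • τ • a) then Fintype.card N else 0 := by
      intro σ hσ τ
      by_cases hP : P (σ • τ • a)
      · simp only [hP, and_true, if_true]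
        rw [Finset.sum_boole, Nat.cast_id, ← hs τ, mul_comm]
        congr 1
        have hn : c⁻¹ * σ⁻¹ * c * σ ∈ N := by
          rw [hC, Finset.mem_filter] at hσ
          exact hσ.2
        refine Finset.card_bij (fun h _ => (⟨c⁻¹ * σ⁻¹ * c * σ, hn⟩ : N)⁻¹ * h) ?_ ?_ ?_
        · intro h hh
          simp only [Finset.mem_filter, Finset.mem_univ, true_and] at hh ⊢
          have e : (h : G) • τ • a = (c⁻¹ * σ⁻¹ * c * σ) • τ • a := by
            have h3 : (c⁻¹ * σ⁻¹) • (σ • (c • (h : G) • τ • a)) =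
                (c⁻¹ * σ⁻¹) • (c • σ • τ • a) := by rw [hh]
            simp only [← mul_smul] at h3 ⊢
            convert h3 using 2
            group
          rw [Subgroup.coe_mul, mul_smul, e]
          exact inv_smul_smul (c⁻¹ * σ⁻¹ * c * σ) (τ • a)
        · intro h _ h' _ hh
          exact mul_left_cancel hh
        · intro h hh
          simp only [Finset.mem_filter, Finset.mem_univ, true_and] at hh ⊢
          refine ⟨(⟨c⁻¹ * σ⁻¹ * c * σ, hn⟩ : N) * h, ?_, ?_⟩
          · rw [Subgroup.coe_mul]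
            have h4 : σ • (c • ((c⁻¹ * σ⁻¹ * c * σ) * (h : G)) • τ • a) =
                c • σ • ((h : G) • τ • a) := by
              simp only [← mul_smul]
              congr 1
              group
            rw [h4, hh]
          · group
      · simp [hP]
    rw [Finset.mul_sum]
    have h5 : ∀ σ ∈ C, m * ∑ τ : G, ∑ h : N, (if (σ • (c • (h : G) • τ • a) =
          c • σ • τ • a ∧ P (σ • τ • a)) then 1 else 0) = W * Fintype.card N := by
      intro σ hσ
      rw [Finset.mul_sum, Finset.sum_congr rfl fun τ _ => h2 σ hσ τ]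
      rw [← Finset.sum_filter, Finset.sum_const, smul_eq_mul]
      congr 1
      refine Finset.card_bij (fun τ _ => σ * τ) ?_ ?_ ?_
      · intro τ hτ
        simp only [Finset.mem_filter, Finset.mem_univ, true_and] at hτ ⊢
        rwa [mul_smul]
      · intro τ _ τ' _ h
        exact mul_left_cancel h
      · intro τ hτ
        simp only [Finset.mem_filter, Finset.mem_univ, true_and] at hτ ⊢
        refine ⟨σ⁻¹ * τ, ?_, by group⟩
        rw [← mul_smul]
        simpa using hτ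
    rw [Finset.sum_congr rfl h5, Finset.sum_const, smul_eq_mul]
    ring
  -- contradiction
  have hlt : ∑ τ : G, ∑ h : N, (Finset.univ.filter fun σ : G => c⁻¹ * σ⁻¹ * c * σ ∈ N ∧
        σ • (c • (h : G) • τ • a) = c • σ • τ • a ∧ P (σ • τ • a)).card * (Fintype.card G * m) <
      ∑ τ : G, ∑ h : N, C.card * W := by
    refine Finset.sum_lt_sum_of_nonempty ⟨1, Finset.mem_univ _⟩ fun τ _ => ?_
    refine Finset.sum_lt_sum_of_nonempty ⟨1, Finset.mem_univ _⟩ fun h _ => ?_
    exact hcon τ h h.2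
  simp_rw [← Finset.sum_mul] at hlt
  rw [Finset.sum_const, Finset.sum_const, Finset.card_univ, Finset.card_univ, smul_eq_mul,
    smul_eq_mul] at hlt
  have e : (∑ τ : G, ∑ h : N, (Finset.univ.filter fun σ : G => c⁻¹ * σ⁻¹ * c * σ ∈ N ∧
        σ • (c • (h : G) • τ • a) = c • σ • τ • a ∧ P (σ • τ • a)).card) * (Fintype.card G * m) =
      Fintype.card G * (m * ∑ τ : G, ∑ h : N, (Finset.univ.filter fun σ : G =>
        c⁻¹ * σ⁻¹ * c * σ ∈ N ∧ σ • (c • (h : G) • τ • a) = c • σ • τ • a ∧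
          P (σ • τ • a)).card) := by ring
  rw [e, hsum] at hlt
  have e2 : Fintype.card G * (C.card * W * Fintype.card N) =
      Fintype.card G * (Fintype.card N * C.card) * W := by ring
  rw [e2] at hlt
  exact lt_irrefl _ hlt

end Pool.Agent.J6H8.FC
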