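import Mathlib

/-!
# Finite groups: conjugates, and preimages under surjective homomorphisms
-/

set_option autoImplicit false

open Finset

namespace Pool.Agent.J6H8.FC

open Classical in
lemma card_conj {H : Type*} [Group H] [Fintype H] (c : H) :
    Nat.card {τ : H // IsConj c τ} * (Finset.univ.filter fun τ : H => τ * c = c * τ).card =
      Fintype.card H := by
  set I := (Finset.univ : Finset H).image fun g => g * c * g⁻¹ with hI
  have h1 : Nat.card {τ : H // IsConj c τ} = I.card := by
    rw [Nat.card_eq_fintype_card, Fintype.card_subtype]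
    congr 1
    ext τ
    simp only [Finset.mem_filter, Finset.mem_univ, true_and, hI, Finset.mem_image]
    exact isConj_iff
  have h2 : ∀ y ∈ I, (Finset.univ.filter fun g : H => g * c * g⁻¹ = y).card =
      (Finset.univ.filter fun τ : H => τ * c = c * τ).card := by
    intro y hy
    rw [hI, Finset.mem_image] at hy
    obtain ⟨g₀, -, rfl⟩ := hy
    refine Finset.card_bij (fun g _ => g₀⁻¹ * g) ?_ ?_ ?_
    · intro g hg
      simp only [Finset.mem_filter, Finset.mem_univ, true_and] at hg ⊢
      have h3 : g * c = g₀ * c * g₀⁻¹ * g := by rw [← hg]; group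
      rw [mul_assoc, h3]
      group
    · intro g _ g' _ h
      exact mul_left_cancel h
    · intro g hg
      simp only [Finset.mem_filter, Finset.mem_univ, true_and] at hg ⊢
      refine ⟨g₀ * g, ?_, by group⟩
      have : g₀ * g * c * (g₀ * g)⁻¹ = g₀ * (g * c) * g⁻¹ * g₀⁻¹ := by group
      rw [this, hg]
      group
  rw [h1, ← Finset.card_univ (α := H),
    Finset.card_eq_sum_card_fiberwise (f := fun g : H => g * c * g⁻¹) (t := I)
      (fun g hg => Finset.mem_image_of_mem _ hg)]
  rw [Finset.sum_congr rfl h2, Finset.sum_const, smul_eq_mul]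

open Classical in
lemma card_preimage {G H : Type*} [Group G] [Fintype G] [Group H] [Fintype H] (π : G →* H)
    (hπ : Function.Surjective π) (S : H → Prop) :
    (Finset.univ.filter fun σ : G => S (π σ)).card =
      Fintype.card π.ker * (Finset.univ.filter fun s : H => S s).card := by
  have h2 : ∀ y ∈ (Finset.univ.filter fun s : H => S s),
      ((Finset.univ.filter fun σ : G => S (π σ)).filter fun σ => π σ = y).card =
        Fintype.card π.ker := by
    intro y hy
    rw [Finset.mem_filter] at hy
    obtain ⟨g₀, rfl⟩ := hπ y
    rw [← Finset.card_univ]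
    refine Finset.card_bij' (fun g hg => (⟨g₀⁻¹ * g, ?_⟩ : π.ker)) (fun h _ => g₀ * h) ?_ ?_ ?_ ?_
    · rw [Finset.mem_filter] at hg
      rw [MonoidHom.mem_ker, map_mul, map_inv, hg.2]
      group
    · intro g _; exact Finset.mem_univ _
    · intro h _
      have h3 : π h = 1 := h.2
      simp only [Finset.mem_filter, Finset.mem_univ, true_and, map_mul, h3, mul_one]
      exact ⟨hy.2, trivial⟩
    · intro g _
      simp
    · intro h _
      simp
  rw [Finset.card_eq_sum_card_fiberwise (f := fun g : G => π g)
      (t := (Finset.univ.filter fun s : H => S s)) (by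
        intro σ hσ
        simp only [Finset.coe_filter, Finset.mem_univ, true_and, Set.mem_setOf_eq] at hσ ⊢
        exact hσ)]
  rw [Finset.sum_congr rfl h2, Finset.sum_const, smul_eq_mul, mul_comm]

end Pool.Agent.J6H8.FC
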