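import Mathlib
import Pool.Agent.J6H8.FC.Base
import Pool.Agent.J6H8.FC.Group

/-!
# The tower `ℚ ⊆ E ⊆ K`
-/

set_option autoImplicit false

open Finset Polynomial Module IntermediateField

namespace Pool.Agent.J6H8.FC

open Pool.Agent.H388SL Pool.Agent.H389R3.LR

/-- the complex conjugation on a normal subfield of `ℂ` -/
noncomputable def conjOn (E : IntermediateField ℚ ℂ) [Normal ℚ E] : E ≃ₐ[ℚ] E :=
  AlgEquiv.restrictNormal (Complex.conjAe.restrictScalars ℚ) E

lemma coe_conjOn (E : IntermediateField ℚ ℂ) [Normal ℚ E] (x : E) :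
    ((conjOn E x : E) : ℂ) = (starRingEnd ℂ) (x : ℂ) :=
  AlgEquiv.restrictNormal_commutes (Complex.conjAe.restrictScalars ℚ) E x

/-- the number of the conjugates of the complex conjugation -/
noncomputable def conjNum (E : IntermediateField ℚ ℂ) [Normal ℚ E] : ℕ :=
  Nat.card {τ : E ≃ₐ[ℚ] E // IsConj (conjOn E) τ}

open Classical in
/-- automorphisms over the base field fixing an element -/
lemma stab_rel (E K : Type*) [Field E] [Field K] [Algebra E K] [FiniteDimensional E K]
    [IsGalois E K] (x : K) :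
    (Finset.univ.filter fun σ : K ≃ₐ[E] K => σ x = x).card * (minpoly E x).natDegree =
      Fintype.card (K ≃ₐ[E] K) := by
  have hx : IsIntegral E x := Algebra.IsIntegral.isIntegral x
  have h1 : Fintype.card (K ≃ₐ[E] K) = finrank E K := by
    rw [← Nat.card_eq_fintype_card]
    exact IsGalois.card_aut_eq_finrank E K
  have h2 : (Finset.univ.filter fun σ : K ≃ₐ[E] K => σ x = x).card = finrank E⟮x⟯ K := by
    rw [← IsGalois.card_fixingSubgroup_eq_finrank E⟮x⟯, Nat.card_eq_fintype_card,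
      Fintype.card_subtype]
    congr 1
    ext σ
    simp only [Finset.mem_filter, Finset.mem_univ, true_and]
    constructor
    · intro h
      rw [IntermediateField.mem_fixingSubgroup_iff]
      have h3 : (σ.toAlgHom.comp E⟮x⟯.val) = E⟮x⟯.val := by
        apply adjoin_algHom_ext E (s := {x})
        intro y hy
        rw [Set.mem_singleton_iff] at hy
        subst hy
        exact h
      intro y hy
      exact DFunLike.congr_fun h3 ⟨y, hy⟩
    · intro h
      rw [IntermediateField.mem_fixingSubgroup_iff] at h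
      exact h x (mem_adjoin_simple_self E x)
  rw [h2, h1, ← adjoin.finrank hx, mul_comm]
  exact finrank_mul_finrank E E⟮x⟯ K

section
variable (E K : IntermediateField ℚ ℂ) (h : E ≤ K)

/-- the algebra structure -/
@[reducible] noncomputable def algEK : Algebra E K := (inclusion h).toAlgebra

end

variable {E K : IntermediateField ℚ ℂ} [FiniteDimensional ℚ K] [IsGalois ℚ K]
  [FiniteDimensional ℚ E] [IsGalois ℚ E]

lemma exists_restr (h : E ≤ K) : ∃ π : (K ≃ₐ[ℚ] K) →* (E ≃ₐ[ℚ] E), Function.Surjective π ∧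
    ∀ (σ : K ≃ₐ[ℚ] K) (e : E), ((σ ⟨e, h e.2⟩ : K) : ℂ) = (π σ e : ℂ) := by
  letI : Algebra E K := algEK E K h
  haveI : IsScalarTower ℚ E K := IsScalarTower.of_algebraMap_eq fun _ => rfl
  refine ⟨AlgEquiv.restrictNormalHom E, AlgEquiv.restrictNormalHom_surjective K, ?_⟩
  intro σ e
  have := AlgEquiv.restrictNormal_commutes σ E e
  have h2 := congrArg (fun z : K => (z : ℂ)) this
  exact h2.symm

open Classical in
/-- the stabilisers in the kernel of the restriction -/
lemma stab_ker (h : E ≤ K) (π : (K ≃ₐ[ℚ] K) →* (E ≃ₐ[ℚ] E))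
    (hπ : ∀ (σ : K ≃ₐ[ℚ] K) (e : E), ((σ ⟨e, h e.2⟩ : K) : ℂ) = (π σ e : ℂ)) (x : K) :
    (Finset.univ.filter fun g : π.ker => (g : K ≃ₐ[ℚ] K) x = x).card *
      (minpoly E (x : ℂ)).natDegree = Fintype.card π.ker := by
  letI : Algebra E K := algEK E K h
  haveI : IsScalarTower ℚ E K := IsScalarTower.of_algebraMap_eq fun _ => rfl
  haveI : IsScalarTower E K ℂ := IsScalarTower.of_algebraMap_eq fun _ => rfl
  haveI : FiniteDimensional E K := FiniteDimensional.right ℚ E K
  haveI : IsGalois E K := IsGalois.tower_top_of_isGalois ℚ E K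
  have h1 : minpoly E (x : ℂ) = minpoly E x :=
    minpoly.algebraMap_eq (A := E) (B := K) (B' := ℂ) (algebraMap K ℂ).injective x
  rw [h1]
  have h2 := stab_rel E K x
  -- the equivalence
  have hmem : ∀ g : K ≃ₐ[E] K, (g.restrictScalars ℚ : K ≃ₐ[ℚ] K) ∈ π.ker := by
    intro g
    rw [MonoidHom.mem_ker]
    ext e
    rw [← hπ]
    have : g (algebraMap E K e) = algebraMap E K e := g.commutes e
    exact congrArg (fun z : K => (z : ℂ)) this
  have hcomm : ∀ g : π.ker, ∀ e : E, (g : K ≃ₐ[ℚ] K) (algebraMap E K e) = algebraMap E K e := by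
    intro g e
    apply Subtype.ext
    have h3 : π (g : K ≃ₐ[ℚ] K) = 1 := g.2
    have h4 := hπ g e
    rw [h3] at h4
    exact h4
  let Φ : (K ≃ₐ[E] K) ≃ π.ker :=
    { toFun := fun g => ⟨g.restrictScalars ℚ, hmem g⟩
      invFun := fun g => AlgEquiv.ofRingEquiv (f := (g : K ≃ₐ[ℚ] K).toRingEquiv) (hcomm g)
      left_inv := fun g => by ext; rfl
      right_inv := fun g => by ext; rfl }
  have h3 : Fintype.card (K ≃ₐ[E] K) = Fintype.card π.ker := Fintype.card_congr Φ
  rw [← h3, ← h2]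
  congr 1
  symm
  refine Finset.card_bij (fun g _ => Φ g) ?_ ?_ ?_
  · intro g hg
    simp only [Finset.mem_filter, Finset.mem_univ, true_and] at hg ⊢
    exact hg
  · intro g _ g' _ hh
    exact Φ.injective hh
  · intro g hg
    simp only [Finset.mem_filter, Finset.mem_univ, true_and] at hg ⊢
    refine ⟨Φ.symm g, hg, Φ.apply_symm_apply g⟩

open Classical in
lemma stab_ker' (h : E ≤ K) (π : (K ≃ₐ[ℚ] K) →* (E ≃ₐ[ℚ] E))
    (hπ : ∀ (σ : K ≃ₐ[ℚ] K) (e : E), ((σ ⟨e, h e.2⟩ : K) : ℂ) = (π σ e : ℂ)) (x : K)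
    (τ : K ≃ₐ[ℚ] K) :
    (Finset.univ.filter fun g : π.ker => (g : K ≃ₐ[ℚ] K) (τ x) = τ x).card *
      (minpoly E (x : ℂ)).natDegree = Fintype.card π.ker := by
  rw [← stab_ker h π hπ x]
  congr 1
  refine Finset.card_bij' (fun g _ => (⟨τ⁻¹ * g * τ, ?_⟩ : π.ker))
    (fun g _ => (⟨τ * g * τ⁻¹, ?_⟩ : π.ker)) ?_ ?_ ?_ ?_
  · have := (inferInstance : π.ker.Normal).conj_mem g g.2 τ⁻¹
    simpa using this
  · exact (inferInstance : π.ker.Normal).conj_mem g g.2 τ
  · intro g hg
    simp only [Finset.mem_filter, Finset.mem_univ, true_and] at hg ⊢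
    rw [AlgEquiv.mul_apply, AlgEquiv.mul_apply, hg, ← AlgEquiv.mul_apply]
    simp
  · intro g hg
    simp only [Finset.mem_filter, Finset.mem_univ, true_and] at hg ⊢
    have : ((τ * (g : K ≃ₐ[ℚ] K) * τ⁻¹ : K ≃ₐ[ℚ] K)) (τ x) = τ ((g : K ≃ₐ[ℚ] K) x) := by
      rw [AlgEquiv.mul_apply, AlgEquiv.mul_apply, ← AlgEquiv.mul_apply τ⁻¹ τ x]
      simp
    rw [this, hg]
  · intro g _
    apply Subtype.ext
    simp only
    group
  · intro g _
    apply Subtype.ext
    simp only
    group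

open Classical in
/-- the number of the automorphisms commuting with the complex conjugation on `E` -/
lemma card_commute (h : E ≤ K) (π : (K ≃ₐ[ℚ] K) →* (E ≃ₐ[ℚ] E)) (hs : Function.Surjective π)
    (hπ : ∀ (σ : K ≃ₐ[ℚ] K) (e : E), ((σ ⟨e, h e.2⟩ : K) : ℂ) = (π σ e : ℂ)) :
    conjNum E * (Finset.univ.filter fun σ : K ≃ₐ[ℚ] K =>
      (conjOn K)⁻¹ * σ⁻¹ * conjOn K * σ ∈ π.ker).card = Fintype.card (K ≃ₐ[ℚ] K) := by
  have hc : π (conjOn K) = conjOn E := by
    ext e
    rw [← hπ, coe_conjOn, coe_conjOn]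
  have h1 := card_preimage π hs (fun s => s * conjOn E = conjOn E * s)
  have h2 : (Finset.univ.filter fun σ : K ≃ₐ[ℚ] K =>
      (conjOn K)⁻¹ * σ⁻¹ * conjOn K * σ ∈ π.ker) =
      (Finset.univ.filter fun σ : K ≃ₐ[ℚ] K => π σ * conjOn E = conjOn E * π σ) := by
    ext σ
    simp only [Finset.mem_filter, Finset.mem_univ, true_and, MonoidHom.mem_ker, map_mul, map_inv,
      hc]
    constructor
    · intro hh
      have : conjOn E * π σ = π σ * conjOn E * ((conjOn E)⁻¹ * (π σ)⁻¹ * conjOn E * π σ) := by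
        group
      rw [this, hh, mul_one]
    · intro hh
      have : (conjOn E)⁻¹ * (π σ)⁻¹ * conjOn E * π σ =
          (conjOn E)⁻¹ * (π σ)⁻¹ * (conjOn E * π σ) := by group
      rw [this, ← hh]
      group
  rw [h2, h1]
  have h3 := card_conj (conjOn E)
  have h4 := card_preimage π hs (fun _ => True)
  simp only [Finset.filter_true, Finset.card_univ] at h4
  rw [h4, ← h3]
  unfold conjNum
  ring

end Pool.Agent.J6H8.FC
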