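import Mathlib
import Pool.Agent.J6H8.FC.Tower

/-!
# Few conjugates of the complex conjugation: the bound
-/

set_option autoImplicit false

open Finset Polynomial Module IntermediateField

namespace Pool.Agent.J6H8.FC

open Pool.Agent.H388SL Pool.Agent.H389R3.LR

section
variable {K : IntermediateField ℚ ℂ} [FiniteDimensional ℚ K] [IsGalois ℚ K]

open Classical in
/-- the number of the automorphisms `σ` such that `σ x` has a property -/
lemma card_pred (x : K) (hx : IsIntegral ℤ x) (p : ℂ → Prop) :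
    (Finset.univ.filter fun σ : K ≃ₐ[ℚ] K => p (σ x)).card =
      stab x * Multiset.card (((minpoly ℤ x).map (Int.castRingHom ℂ)).roots.filter p) := by
  have h := sum_conj x hx (fun z => if p z then 1 else 0)
  rw [Finset.sum_ite, Finset.sum_const_zero, add_zero, Finset.sum_const, nsmul_eq_mul, mul_one] at h
  have h2 : ((((minpoly ℤ x).map (Int.castRingHom ℂ)).roots.map
      (fun z => if p z then (1:ℝ) else 0)).sum) =
      (Multiset.card (((minpoly ℤ x).map (Int.castRingHom ℂ)).roots.filter p) : ℝ) := by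
    generalize ((minpoly ℤ x).map (Int.castRingHom ℂ)).roots = s
    induction s using Multiset.induction_on with
    | empty => simp
    | cons a s ih =>
      rw [Multiset.map_cons, Multiset.sum_cons, ih, Multiset.filter_cons]
      by_cases ha : p a
      · simp [ha, add_comm]
      · simp [ha]
  rw [h2] at h
  exact_mod_cast h

lemma minpoly_aut (τ : K ≃ₐ[ℚ] K) (x : K) : minpoly ℤ (τ x) = minpoly ℤ x :=
  minpoly.algEquiv_eq (τ.restrictScalars ℤ) x

lemma isIntegral_aut (τ : K ≃ₐ[ℚ] K) {x : K} (hx : IsIntegral ℤ x) : IsIntegral ℤ (τ x) :=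
  hx.map (τ.toAlgHom.restrictScalars ℤ)

lemma exists_norm_ne (x : K) (hx : IsIntegral ℤ x)
    (hM : 1 < ((minpoly ℤ x).map (Int.castRingHom ℂ)).mahlerMeasure) :
    ∃ τ : K ≃ₐ[ℚ] K, ‖((τ x : K) : ℂ)‖ ≠ 1 := by
  by_contra hcon
  push Not at hcon
  have h1 := sum_logPlus x hx
  have h2 : ∑ σ : K ≃ₐ[ℚ] K, Real.posLog ‖((σ x : K) : ℂ)‖ = 0 := by
    refine Finset.sum_eq_zero fun σ _ => ?_
    rw [hcon σ]
    simp
  rw [h2] at h1
  have h3 : (0:ℝ) < stab x := by exact_mod_cast stab_pos x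
  have h4 := Real.log_pos hM
  have : 0 < (stab x : ℝ) * Real.log ((minpoly ℤ x).map (Int.castRingHom ℂ)).mahlerMeasure :=
    mul_pos h3 h4
  linarith

lemma mul_conj_coe (y : K) : (((y * conjOn K y : K)) : ℂ) = ((‖(y : ℂ)‖ ^ 2 : ℝ) : ℂ) := by
  push_cast
  rw [coe_conjOn, Complex.mul_conj, Complex.normSq_eq_norm_sq]
  push_cast
  rfl

end

/-- the statement for a pair -/
theorem pair : ∃ c : ℝ, 0 < c ∧ ∀ (K : IntermediateField ℚ ℂ) [FiniteDimensional ℚ K]
    [IsGalois ℚ K] (y : K) (g : K ≃ₐ[ℚ] K), IsIntegral ℤ y → y ≠ 0 →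
    ∀ (A : Finset (K ≃ₐ[ℚ] K)) (t : ℝ), 1 ≤ t →
    (∀ σ ∈ A, σ (g y) = conjOn K (σ y)) → (∃ σ ∈ A, ‖((σ y : K) : ℂ)‖ ≠ 1) →
    (Fintype.card (K ≃ₐ[ℚ] K) : ℝ) ≤ t * A.card →
    c * ((minpoly ℤ y).natDegree / (t * Real.log (2 * t)) ^ 2) ≤
      Real.log ((minpoly ℤ y).map (Int.castRingHom ℂ)).mahlerMeasure := by
  obtain ⟨c, hc, H⟩ := base
  refine ⟨c, hc, ?_⟩
  intro K _ _ y g hy h0 A t ht hA ⟨σ₀, hσ₀, hne⟩ hcard
  have key : ∀ σ ∈ A, ((σ (y * g y) : K) : ℂ) = ((‖((σ y : K) : ℂ)‖ ^ 2 : ℝ) : ℂ) := by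
    intro σ hσ
    rw [map_mul, hA σ hσ]
    exact mul_conj_coe (σ y)
  refine H K y g hy ?_ ?_ A t ht ?_ hcard
  · exact mul_ne_zero h0 ((map_ne_zero g).mpr h0)
  · intro m hm h1
    have h2 : ((σ₀ ((y * g y) ^ m) : K) : ℂ) = 1 := by
      rw [h1, map_one]; rfl
    rw [map_pow] at h2
    have h3 : ((σ₀ (y * g y) : K) : ℂ) ^ m = 1 := by
      rw [← h2]; push_cast; rfl
    rw [key σ₀ hσ₀, ← Complex.ofReal_pow] at h3
    have h4 : (‖((σ₀ y : K) : ℂ)‖ ^ 2) ^ m = 1 := by exact_mod_cast h3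
    rw [← pow_mul] at h4
    have h5 := (pow_eq_one_iff_of_nonneg (norm_nonneg _) (by omega)).mp h4
    exact hne h5
  · intro σ hσ
    rw [key σ hσ, Complex.ofReal_im]

open Classical in
/-- the number of the zeros off the unit circle -/
noncomputable def offCircle (f : ℤ[X]) : ℕ :=
  Multiset.card ((f.map (Int.castRingHom ℂ)).roots.filter fun z => ‖z‖ ≠ 1)

/-- **the bound in a Galois extension** -/
theorem main : ∃ c : ℝ, 0 < c ∧ ∀ (K : IntermediateField ℚ ℂ) [FiniteDimensional ℚ K]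
    [IsGalois ℚ K] (E : IntermediateField ℚ ℂ) [FiniteDimensional ℚ E] [IsGalois ℚ E] (_ : E ≤ K)
    (x : K), IsIntegral ℤ x → 1 < ((minpoly ℤ x).map (Int.castRingHom ℂ)).mahlerMeasure →
    (∀ t : ℝ, t = (minpoly ℤ x).natDegree * (minpoly E (x : ℂ)).natDegree * conjNum E /
      offCircle (minpoly ℤ x) → c * ((minpoly ℤ x).natDegree / (t * Real.log (2 * t)) ^ 2) ≤
      Real.log ((minpoly ℤ x).map (Int.castRingHom ℂ)).mahlerMeasure) ∧
    ((x : ℂ) ∈ E → c * ((minpoly ℤ x).natDegree /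
      (conjNum E * Real.log (2 * conjNum E)) ^ 2) ≤
      Real.log ((minpoly ℤ x).map (Int.castRingHom ℂ)).mahlerMeasure) := by
  classical
  obtain ⟨c, hc, H⟩ := pair
  refine ⟨c, hc, ?_⟩
  intro K _ _ E _ _ h x hx hM
  have hx0 : x ≠ 0 := by
    rintro rfl
    have h1 := sum_logPlus (0 : K) hx
    simp only [map_zero, ZeroMemClass.coe_zero, norm_zero, Real.posLog_zero,
      Finset.sum_const_zero] at h1
    have h3 : (0:ℝ) < stab (0 : K) := by exact_mod_cast stab_pos (0 : K)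
    have := mul_pos h3 (Real.log_pos hM)
    linarith
  obtain ⟨π, hs, hπ⟩ := exists_restr h
  have hcomm := card_commute h π hs hπ
  set C := (Finset.univ.filter fun σ : K ≃ₐ[ℚ] K =>
      (conjOn K)⁻¹ * σ⁻¹ * conjOn K * σ ∈ π.ker) with hC
  have hGpos : 0 < Fintype.card (K ≃ₐ[ℚ] K) := Fintype.card_pos
  have hD : 0 < conjNum E := by
    rcases Nat.eq_zero_or_pos (conjNum E) with h0 | h0
    · rw [h0, zero_mul] at hcomm; omega
    · exact h0
  have hCpos : 0 < C.card := by
    rcases Nat.eq_zero_or_pos C.card with h0 | h0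
    · rw [h0, mul_zero] at hcomm; omega
    · exact h0
  obtain ⟨τ₀, hτ₀⟩ := exists_norm_ne x hx hM
  constructor
  · intro t ht
    set n := (minpoly ℤ x).natDegree with hn
    set m := (minpoly E (x : ℂ)).natDegree with hm
    set V := offCircle (minpoly ℤ x) with hV
    set W := (Finset.univ.filter fun τ : K ≃ₐ[ℚ] K => ‖((τ x : K) : ℂ)‖ ≠ 1).card with hW
    have hWV : W = stab x * V := by
      rw [hW, hV]
      unfold offCircle
      convert card_pred x hx (fun z => ‖z‖ ≠ 1)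
    have hWpos : 0 < W := Finset.card_pos.mpr ⟨τ₀, by simpa using hτ₀⟩
    have hVpos : 0 < V := by
      rcases Nat.eq_zero_or_pos V with h0 | h0
      · rw [h0, mul_zero] at hWV; omega
      · exact h0
    have hstab := stab_mul x hx
    rw [← hn] at hstab
    have hker : ∀ τ : K ≃ₐ[ℚ] K, (Finset.univ.filter fun g : π.ker =>
        (g : K ≃ₐ[ℚ] K) • (τ • x) = τ • x).card * m = Fintype.card π.ker :=
      fun τ => stab_ker' h π hπ x τ
    obtain ⟨τ, g, hg, hcomb⟩ := comb π.ker (conjOn K) x (fun y : K => ‖(y : ℂ)‖ ≠ 1) m hker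
    set A := (Finset.univ.filter fun σ : K ≃ₐ[ℚ] K => (conjOn K)⁻¹ * σ⁻¹ * conjOn K * σ ∈ π.ker ∧
      σ • (conjOn K • g • τ • x) = conjOn K • σ • τ • x ∧ ‖((σ • τ • x : K) : ℂ)‖ ≠ 1) with hA
    have hcomb' : C.card * W ≤ A.card * (Fintype.card (K ≃ₐ[ℚ] K) * m) := hcomb
    have hApos : 0 < A.card := by
      rcases Nat.eq_zero_or_pos A.card with h0 | h0
      · rw [h0, zero_mul] at hcomb'
        have := Nat.mul_pos hCpos hWpos
        omega
      · exact h0
    -- the inequality `|G| V ≤ n m D A`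
    have hineq : Fintype.card (K ≃ₐ[ℚ] K) * V ≤ n * m * conjNum E * A.card := by
      have h1 : conjNum E * (C.card * W) ≤
          conjNum E * (A.card * (Fintype.card (K ≃ₐ[ℚ] K) * m)) := Nat.mul_le_mul_left _ hcomb'
      have h2 : conjNum E * (C.card * W) = Fintype.card (K ≃ₐ[ℚ] K) * W := by
        rw [← mul_assoc, hcomm]
      have h3 : conjNum E * (A.card * (Fintype.card (K ≃ₐ[ℚ] K) * m)) =
          Fintype.card (K ≃ₐ[ℚ] K) * (m * conjNum E * A.card) := by ring
      rw [h2, h3] at h1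
      have h4 : W ≤ m * conjNum E * A.card := Nat.le_of_mul_le_mul_left h1 hGpos
      calc Fintype.card (K ≃ₐ[ℚ] K) * V = n * W := by rw [hWV, ← hstab]; ring
        _ ≤ n * (m * conjNum E * A.card) := Nat.mul_le_mul_left _ h4
        _ = _ := by ring
    have hVR : (0:ℝ) < V := by exact_mod_cast hVpos
    have hcard : (Fintype.card (K ≃ₐ[ℚ] K) : ℝ) ≤ t * A.card := by
      rw [ht, div_mul_eq_mul_div, le_div_iff₀ hVR]
      exact_mod_cast hineq
    have hAG : A.card ≤ Fintype.card (K ≃ₐ[ℚ] K) := Finset.card_le_univ A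
    have ht1 : 1 ≤ t := by
      have h1 : (A.card : ℝ) ≤ Fintype.card (K ≃ₐ[ℚ] K) := by exact_mod_cast hAG
      have h2 : (0:ℝ) < A.card := by exact_mod_cast hApos
      have h3 : 1 * (A.card : ℝ) ≤ t * A.card := by linarith
      exact le_of_mul_le_mul_right h3 h2
    have hfin := H K (τ x) (conjOn K * g) (isIntegral_aut τ hx) ((map_ne_zero τ).mpr hx0) A t ht1
      (by
        intro σ hσ
        rw [hA, Finset.mem_filter] at hσ
        exact hσ.2.2.1)
      (by
        obtain ⟨σ, hσ⟩ := Finset.card_pos.mp hApos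
        refine ⟨σ, hσ, ?_⟩
        rw [hA, Finset.mem_filter] at hσ
        exact hσ.2.2.2)
      hcard
    rw [minpoly_aut] at hfin
    exact hfin
  · intro hxE
    set y := τ₀ x with hy
    have hyE : (y : ℂ) ∈ E := by
      have := hπ τ₀ ⟨x, hxE⟩
      change ((τ₀ x : K) : ℂ) = _ at this
      rw [hy, this]
      exact (π τ₀ ⟨x, hxE⟩).2
    have hfix : ∀ g ∈ π.ker, g y = y := by
      intro g hg
      rw [MonoidHom.mem_ker] at hg
      apply Subtype.ext
      have := hπ g ⟨y, hyE⟩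
      rw [hg] at this
      exact this
    have hfin := H K y (conjOn K) (isIntegral_aut τ₀ hx) ((map_ne_zero τ₀).mpr hx0) C
      (conjNum E) (by exact_mod_cast hD)
      (by
        intro σ hσ
        rw [hC, Finset.mem_filter] at hσ
        have h1 := hfix _ hσ.2
        have h2 : (σ * conjOn K) (((conjOn K)⁻¹ * σ⁻¹ * conjOn K * σ) y) = (σ * conjOn K) y := by
          rw [h1]
        have h3 : (σ * conjOn K) (((conjOn K)⁻¹ * σ⁻¹ * conjOn K * σ) y) = conjOn K (σ y) := by
          have e : (σ * conjOn K) * ((conjOn K)⁻¹ * σ⁻¹ * conjOn K * σ) = conjOn K * σ := by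
            group
          rw [← AlgEquiv.mul_apply, e, AlgEquiv.mul_apply]
        rw [h3] at h2
        exact h2.symm)
      ⟨1, by
        rw [hC, Finset.mem_filter]
        refine ⟨Finset.mem_univ _, ?_⟩
        have : (conjOn K)⁻¹ * (1 : K ≃ₐ[ℚ] K)⁻¹ * conjOn K * 1 = 1 := by group
        rw [this]
        exact one_mem _, hτ₀⟩
      (by exact_mod_cast hcomm.symm.le)
    rw [hy, minpoly_aut] at hfin
    exact hfin

/-- **the bound for polynomials** -/
theorem final : ∃ c : ℝ, 0 < c ∧ ∀ f : ℤ[X], Irreducible f → f.Monic →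
    1 < (f.map (Int.castRingHom ℂ)).mahlerMeasure →
    ∀ (E : IntermediateField ℚ ℂ) [FiniteDimensional ℚ E] [IsGalois ℚ E] (α : ℂ),
    aeval α f = 0 →
    (∀ t : ℝ, t = f.natDegree * (minpoly E α).natDegree * conjNum E / offCircle f →
      c * (f.natDegree / (t * Real.log (2 * t)) ^ 2) ≤
      Real.log (f.map (Int.castRingHom ℂ)).mahlerMeasure) ∧
    (α ∈ E → c * (f.natDegree / (conjNum E * Real.log (2 * conjNum E)) ^ 2) ≤
      Real.log (f.map (Int.castRingHom ℂ)).mahlerMeasure) := by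
  obtain ⟨c, hc, H⟩ := main
  refine ⟨c, hc, ?_⟩
  intro f hf hm hM E _ _ α hα
  have hαi : IsIntegral ℤ α := ⟨f, hm, by rw [← Polynomial.aeval_def]; exact hα⟩
  have hαQ : IsIntegral ℚ α := hαi.tower_top
  have hmin : minpoly ℤ α = f := by
    have h1 := minpoly.isIntegrallyClosed_dvd hαi hα
    have h2 : Associated (minpoly ℤ α) f :=
      (minpoly.irreducible hαi).associated_of_dvd hf h1
    exact eq_of_monic_of_associated (minpoly.monic hαi) hm h2
  have : FiniteDimensional ℚ ℚ⟮α⟯ := adjoin.finiteDimensional hαQ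
  set L : IntermediateField ℚ ℂ := E ⊔ ℚ⟮α⟯ with hL
  have hfin : FiniteDimensional ℚ L := by rw [hL]; infer_instance
  set K : IntermediateField ℚ ℂ := normalClosure ℚ L ℂ with hK
  have hKfin : FiniteDimensional ℚ K := by rw [hK]; infer_instance
  have hKnorm : Normal ℚ K := by
    rw [hK]
    exact (Algebra.IsAlgebraic.isNormalClosure_normalClosure
      fun x => IsAlgClosed.splits _).normal
  have hLK : L ≤ K := le_normalClosure L
  have hKgal : IsGalois ℚ K := { to_isSeparable := inferInstance, to_normal := hKnorm }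
  have hEK : E ≤ K := le_sup_left.trans hLK
  have hαK : α ∈ K := hLK ((le_sup_right : ℚ⟮α⟯ ≤ L) (mem_adjoin_simple_self ℚ α))
  have h1 : minpoly ℤ (⟨α, hαK⟩ : K) = f := by
    rw [← hmin]
    exact (minpoly.algebraMap_eq (algebraMap K ℂ).injective (⟨α, hαK⟩ : K)).symm
  have h2 : IsIntegral ℤ (⟨α, hαK⟩ : K) := by
    refine (isIntegral_algebraMap_iff (algebraMap K ℂ).injective).mp ?_
    exact hαi
  have h3 := H K E hEK ⟨α, hαK⟩ h2 (by rw [h1]; exact hM)
  rw [h1] at h3
  exact h3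

end Pool.Agent.J6H8.FC
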